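import Mathlib
import Pool.Agent.H.MP_f234cd_al.A

namespace Pool.Agent.Results.MP_f234cd_al.Yes

open Function Pool.Agent.H.MP_5b0e2c_al Pool.Agent.H.MP_f234cd_al

/-- `k`-sharp action that is transitive on `k`-element subsets -/
def Good (k : ℕ) (G U : Type) [Group G] [MulAction G U] : Prop :=
  (∀ (g : G) (a : Fin k ↪ U), g • a = a → g = 1) ∧
  ∀ A B : Finset U, A.card = k → B.card = k → ∃ g : G, (fun x => g • x) '' (A : Set U) = B

/-- the least number of orbits on `k`-tuples of distinct points -/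
noncomputable def tau (U : Type) (k : ℕ) : ℕ :=
  sInf {n | ∃ (G : Type) (_ : Group G) (_ : MulAction G U), Good k G U ∧
    Nat.card (MulAction.orbitRel.Quotient G (Fin k ↪ U)) = n}

theorem surj {k : ℕ} {G U ι : Type} [Group G] [MulAction G U] [Fintype ι] (h : Good k G U)
    (hk : Fintype.card ι = k) (c : ι ↪ U) (ω : MulAction.orbitRel.Quotient G (Fin k ↪ U)) :
    ∃ σ : Fin k ≃ ι, ω = ⟦σ.toEmbedding.trans c⟧ := by
  obtain ⟨a, rfl⟩ := Quotient.exists_rep ω
  obtain ⟨g, hg⟩ := h.2 (Finset.univ.map a) (Finset.univ.map c) (by simp) (by simp [hk])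
  have : ∀ i, ∃ j, c j = g • a i := fun i => by
    have : g • a i ∈ ((Finset.univ.map c : Finset U) : Set U) := hg ▸ ⟨a i, by simp, rfl⟩
    simpa using this
  choose σ hσ using this
  have hi : Injective σ := fun i j e => a.injective (MulAction.injective g (by
    show g • a i = g • a j
    rw [← hσ, ← hσ, e]))
  refine ⟨Equiv.ofBijective σ ((Fintype.bijective_iff_injective_and_card σ).2
    ⟨hi, by simp [hk]⟩), ?_⟩
  symm
  exact Quotient.sound ⟨g, Embedding.ext fun i => (hσ i).symm⟩

theorem result (U : Type) [Countable U] [Infinite U] :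
    ∃ X : Set ℕ, X.Infinite ∧ ∃ c C : ℝ, 1 < c ∧ 0 < C ∧ ∀ k ∈ X, 2 ≤ k ∧ 0 < tau U k ∧
      C * (k : ℝ) ^ c ≤ (k.factorial : ℝ) / (tau U k : ℝ) := by
  refine ⟨{p | p.Prime}, Nat.infinite_setOfPred_prime, 2, 1 / 2, by norm_num, by norm_num,
    fun p hp => ?_⟩
  have hp : p.Prime := hp
  have := Fact.mk hp
  obtain ⟨G, X, _, _, _, _, h1, h2, c, hc, h3⟩ := main (p := p)
  obtain ⟨e⟩ : Nonempty (U ≃ X) := nonempty_equiv_of_countable
  let _ : MulAction G U :=
    { smul := fun g u => e.symm (g • e u)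
      one_smul := fun u => show e.symm _ = _ by simp
      mul_smul := fun g h u => show e.symm _ = e.symm (g • e (e.symm _)) by simp [mul_smul] }
  have hs : ∀ (g : G) (u : U), e (g • u) = g • e u := fun g u => e.apply_symm_apply _
  have η : ZMod p ≃ Fin p := Fintype.equivFinOfCardEq (ZMod.card p)
  have hG : Good p G U := ⟨fun g a h => h1 g (fun i => e (a (η i)))
    (e.injective.comp (a.injective.comp η.injective))
    (fun i => by rw [← hs, ← Embedding.smul_apply, h]), fun A B hA hB => by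
      let α : ZMod p ≃ A := η.trans (A.equivFinOfCardEq hA).symm
      let β : ZMod p ≃ B := η.trans (B.equivFinOfCardEq hB).symm
      have ha : Injective (fun i => e (α i)) :=
        e.injective.comp (Subtype.val_injective.comp α.injective)
      obtain ⟨g, hg⟩ := h2 _ (fun i => e (β i)) ha
        (e.injective.comp (Subtype.val_injective.comp β.injective))
      obtain ⟨σ, hσ⟩ := ex_perm (z' := fun i => e (β i)) ha hg
      have k : ∀ i, g • (α i : U) = β (σ i) := fun i => e.injective ((hs _ _).trans (hσ i))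
      refine ⟨g, Set.ext fun y => ⟨?_, fun hy => ⟨α (σ.symm (β.symm ⟨y, hy⟩)), (α _).2, ?_⟩⟩⟩
      · rintro ⟨x, hx, rfl⟩
        have := k (α.symm ⟨x, hx⟩)
        simp only [Equiv.apply_symm_apply] at this
        simp only [this]
        exact (β _).2
      · simp [k]⟩
  let c' : ZMod p ↪ U := ⟨fun i => e.symm (c i), e.symm.injective.comp hc⟩
  have fin : ∀ (G : Type) [Group G] [MulAction G U], Good p G U →
      Finite (MulAction.orbitRel.Quotient G (Fin p ↪ U)) := fun G _ _ h =>
    Finite.of_surjective (fun σ : Fin p ≃ ZMod p => ⟦σ.toEmbedding.trans c'⟧)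
      (fun ω => (surj h (ZMod.card p) c' ω).imp fun _ e => e.symm)
  have pos : 0 < tau U p := by
    obtain ⟨G', _, _, k1, k2⟩ := Nat.sInf_mem (s := {n | ∃ (G : Type) (_ : Group G)
      (_ : MulAction G U), Good p G U ∧
      Nat.card (MulAction.orbitRel.Quotient G (Fin p ↪ U)) = n}) ⟨_, G, _, _, hG, rfl⟩
    have := fin G' k1
    have : Nonempty (MulAction.orbitRel.Quotient G' (Fin p ↪ U)) :=
      ⟨⟦η.symm.toEmbedding.trans c'⟧⟩
    exact (Nat.card_pos (α := MulAction.orbitRel.Quotient G' (Fin p ↪ U))).trans_eq k2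
  have le : tau U p ≤ Nat.card (MulAction.orbitRel.Quotient G (Fin p ↪ U)) :=
    Nat.sInf_le ⟨G, _, _, hG, rfl⟩
  choose s hσ using surj hG (ZMod.card p) c'
  have inj : Injective (fun q : MulAction.orbitRel.Quotient G (Fin p ↪ U) × AG p =>
      (s q.1).trans q.2.1) := by
    have k : ∀ ω (θ : AG p), ω = ⟦((s ω).trans θ.1).toEmbedding.trans c'⟧ := fun ω θ => by
      obtain ⟨g, hg⟩ := h3 θ
      refine (hσ ω).trans ?_
      symm
      refine Quotient.sound ⟨g, Embedding.ext fun i => e.injective ?_⟩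
      exact (hs _ _).trans (by simp [c', hg])
    rintro ⟨ω, θ⟩ ⟨ω', θ'⟩ h
    simp only at h
    obtain rfl : ω = ω' := by rw [k ω θ, h, ← k]
    refine Prod.ext rfl (Subtype.ext (Equiv.ext fun i => ?_))
    simpa using DFunLike.congr_fun h ((s ω).symm i)
  have bd := Nat.card_le_card_of_injective _ inj
  rw [Nat.card_prod, Nat.card_eq_fintype_card (α := Fin p ≃ ZMod p), Fintype.card_equiv η.symm,
    Fintype.card_fin] at bd
  have b2 : tau U p * ((p - 1) * p) ≤ p.factorial := (Nat.mul_le_mul le card_ag).trans bd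
  have h2 := hp.two_le
  refine ⟨h2, pos, ?_⟩
  rw [le_div_iff₀ (by exact_mod_cast pos), Real.rpow_two]
  have b3 : ((tau U p : ℝ)) * (((p : ℝ) - 1) * p) ≤ p.factorial := by
    have := (Nat.cast_le (α := ℝ)).2 b2
    rwa [Nat.cast_mul, Nat.cast_mul, Nat.cast_pred hp.pos] at this
  have b4 : (2 : ℝ) ≤ p := by exact_mod_cast h2
  have b5 : (0 : ℝ) ≤ tau U p := Nat.cast_nonneg _
  nlinarith [mul_nonneg b5 (mul_nonneg (sub_nonneg.2 b4) (by linarith : (0 : ℝ) ≤ p))]

end Pool.Agent.Results.MP_f234cd_al.Yes
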